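import Pool.Agent.ZRT.StmtsA
import Pool.Agent.Helper60_MVS.MCO
import Pool.Agent.Helper5_RF.Common
import Pool.Agent.Helper5_RF.Cyl
import Pool.Agent.Helper36_RF.Chr

/-!
# ZRT, row XB1 (helper62): basic facts on the exponential map
-/

set_option autoImplicit false

noncomputable section

open scoped ContDiff Topology RealInnerProductSpace
open Set

namespace Pool.Agent.ZRT.H62

open Pool.Agent.RF Pool.Agent.MVS Pool.Agent.ZRT

variable {G : E5 → Bil E5} {ex : E5 × E5 → E5}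

theorem mco : McoStatement := Pool.Agent.MVS.H60.mco

theorem isOpen_Om5 : IsOpen (Om (Fin 5)) := isOpen_compl_singleton

theorem cdE (hE : IsExp G ex) {m : E5} (hm : m ∈ Om (Fin 5)) :
    ContDiff ℝ ∞ (fun u : E5 => ex (m, u)) := by
  rw [contDiff_iff_contDiffAt]
  intro u
  have hmem : (m, u) ∈ Om (Fin 5) ×ˢ (univ : Set E5) := ⟨hm, mem_univ u⟩
  have h1 : ContDiffAt ℝ ∞ ex (m, u) :=
    (hE.smooth (m, u) hmem).contDiffAt ((isOpen_Om5.prod isOpen_univ).mem_nhds hmem)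
  exact h1.comp u (contDiffAt_const.prodMk contDiffAt_id)

theorem hasFD (hE : IsExp G ex) {m : E5} (hm : m ∈ Om (Fin 5)) (u : E5) :
    HasFDerivAt (fun u : E5 => ex (m, u)) (fderiv ℝ (fun u : E5 => ex (m, u)) u) u :=
  ((cdE hE hm).differentiable (by simp)).differentiableAt.hasFDerivAt

/-- derivative of `exp_m` along a curve -/
theorem hasD_ex (hE : IsExp G ex) {m : E5} (hm : m ∈ Om (Fin 5)) {z : ℝ → E5} {u : E5} {s : ℝ}
    (h : HasDerivAt z u s) : HasDerivAt (fun r => ex (m, z r)) (dE ex m (z s) u) s :=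
  (hasFD hE hm (z s)).comp_hasDerivAt s h

/-- derivative of `d exp_m` along a curve -/
theorem hasD_dE (hE : IsExp G ex) {m : E5} (hm : m ∈ Om (Fin 5)) {z w : ℝ → E5} {u w' : E5}
    {s : ℝ} (h : HasDerivAt z u s) (hw : HasDerivAt w w' s) :
    HasDerivAt (fun r => dE ex m (z r) (w r))
      (fderiv ℝ (fderiv ℝ (fun u : E5 => ex (m, u))) (z s) u (w s) + dE ex m (z s) w') s := by
  have h1 : DifferentiableAt ℝ (fderiv ℝ (fun u : E5 => ex (m, u))) (z s) :=
    (H5.fd_contDiffAt (cdE hE hm).contDiffAt).differentiableAt (by simp)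
  exact (h1.hasFDerivAt.comp_hasDerivAt s h).clm_apply hw

theorem sym_dE (hE : IsExp G ex) {m : E5} (hm : m ∈ Om (Fin 5)) (z u v : E5) :
    fderiv ℝ (fderiv ℝ (fun u : E5 => ex (m, u))) z u v =
      fderiv ℝ (fderiv ℝ (fun u : E5 => ex (m, u))) z v u :=
  H5.fd2_symm (cdE hE hm).contDiffAt u v

theorem hasD_line (v : E5) (t : ℝ) : HasDerivAt (fun s : ℝ => s • v) v t := by
  have h := (hasDerivAt_id t).smul_const v
  simpa using h

theorem hasD_c (hE : IsExp G ex) {m : E5} (hm : m ∈ Om (Fin 5)) (v : E5) (t : ℝ) :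
    HasDerivAt (fun s : ℝ => ex (m, s • v)) (Tf ex m v t) t :=
  hasD_ex hE hm (hasD_line v t)

theorem deriv_c (hE : IsExp G ex) {m : E5} (hm : m ∈ Om (Fin 5)) (v : E5) :
    deriv (fun s : ℝ => ex (m, s • v)) = fun t => Tf ex m v t :=
  funext fun t => (hasD_c hE hm v t).deriv

theorem hasD_T (hE : IsExp G ex) {m : E5} (hm : m ∈ Om (Fin 5)) (v : E5) (t : ℝ) :
    HasDerivAt (fun s : ℝ => Tf ex m v s)
      (- chris G (ex (m, t • v)) (Tf ex m v t) (Tf ex m v t)) t := by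
  have h1 := hasD_dE hE hm (hasD_line v t) (hasDerivAt_const t v)
  have h2 := hE.geo m hm v t
  rw [deriv_c hE hm v] at h2
  have h3 : HasDerivAt (fun s : ℝ => Tf ex m v s) (deriv (fun s : ℝ => Tf ex m v s) t) t :=
    h1.differentiableAt.hasDerivAt
  rw [h2] at h3
  exact h3

theorem dE_zero (hE : IsExp G ex) {m : E5} (hm : m ∈ Om (Fin 5)) (w : E5) : dE ex m 0 w = w := by
  have h1 := hE.init m hm w
  rw [deriv_c hE hm w] at h1
  have h2 : Tf ex m w 0 = w := h1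
  unfold Tf at h2
  rwa [zero_smul] at h2

theorem Tf_zero (hE : IsExp G ex) {m : E5} (hm : m ∈ Om (Fin 5)) (v : E5) : Tf ex m v 0 = v := by
  unfold Tf
  rw [zero_smul]
  exact dE_zero hE hm v

theorem ex_zero (hE : IsExp G ex) {m : E5} (hm : m ∈ Om (Fin 5)) (v : E5) :
    ex (m, (0 : ℝ) • v) = m := by
  rw [zero_smul]
  exact hE.zero m hm

/-- constant speed -/
theorem speed (hG : IsCyl G) (hE : IsExp G ex) {m : E5} (hm : m ∈ Om (Fin 5)) (v : E5) (t : ℝ) :
    G (ex (m, t • v)) (Tf ex m v t) (Tf ex m v t) = G m v v := by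
  have hd : ∀ t : ℝ, HasDerivAt
      (fun s : ℝ => G (ex (m, s • v)) (Tf ex m v s) (Tf ex m v s)) 0 t := by
    intro t
    have h := mco (Fin 5) G (Om (Fin 5)) hG.metric _ _ _ _ _ _ t (hE.mem m hm _) (hasD_c hE hm v t)
      (hasD_T hE hm v t) (hasD_T hE hm v t)
    rw [neg_add_cancel, map_zero, map_zero, _root_.zero_apply, add_zero] at h
    exact h
  have h1 : ∀ s t : ℝ, G (ex (m, s • v)) (Tf ex m v s) (Tf ex m v s) =
      G (ex (m, t • v)) (Tf ex m v t) (Tf ex m v t) :=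
    is_const_of_deriv_eq_zero (fun t => (hd t).differentiableAt) (fun t => (hd t).deriv)
  rw [h1 t 0, Tf_zero hE hm, ex_zero hE hm]

/-- `⟪c, c'⟫ / |c|²` is constant -/
theorem rad (hG : IsCyl G) (hE : IsExp G ex) {m : E5} (hm : m ∈ Om (Fin 5)) (v : E5) (t : ℝ) :
    ⟪ex (m, t • v), Tf ex m v t⟫ / ‖ex (m, t • v)‖ ^ 2 = ⟪m, v⟫ / ‖m‖ ^ 2 := by
  have hd : ∀ t : ℝ, HasDerivAt
      (fun s : ℝ => G (ex (m, s • v)) (ex (m, s • v)) (Tf ex m v s)) 0 t := by
    intro t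
    have hmt := hE.mem m hm (t • v)
    have h := mco (Fin 5) G (Om (Fin 5)) hG.metric _ _ _ _ _ _ t hmt (hasD_c hE hm v t)
      (hasD_c hE hm v t) (hasD_T hE hm v t)
    have hchr : chris G (ex (m, t • v)) (Tf ex m v t) (ex (m, t • v)) = - Tf ex m v t :=
      (H5.cyl chrStatement (Fin 5) G hG _ hmt).1 _
    rw [hchr, add_neg_cancel, neg_add_cancel, map_zero, map_zero, _root_.zero_apply,
      add_zero] at h
    exact h
  have h1 : ∀ s t : ℝ, G (ex (m, s • v)) (ex (m, s • v)) (Tf ex m v s) =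
      G (ex (m, t • v)) (ex (m, t • v)) (Tf ex m v t) :=
    is_const_of_deriv_eq_zero (fun t => (hd t).differentiableAt) (fun t => (hd t).deriv)
  have h2 := h1 t 0
  rw [hG.radial _ (hE.mem m hm _), hG.radial _ (hE.mem m hm _), Tf_zero hE hm,
    ex_zero hE hm] at h2
  exact h2

theorem norm_ex (hG : IsCyl G) (hE : IsExp G ex) {m : E5} (hm : m ∈ Om (Fin 5)) (v : E5) :
    ‖ex (m, v)‖ = ‖m‖ * Real.exp (⟪m, v⟫ / ‖m‖ ^ 2) := by
  obtain ⟨k, hk⟩ : ∃ k : ℝ, k = ⟪m, v⟫ / ‖m‖ ^ 2 := ⟨_, rfl⟩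
  have hd : ∀ t : ℝ, HasDerivAt
      (fun s : ℝ => ‖ex (m, s • v)‖ ^ 2 * Real.exp (-(2 * k) * s)) 0 t := by
    intro t
    have h0 : ex (m, t • v) ≠ 0 := hE.mem m hm (t • v)
    have h1 : ⟪ex (m, t • v), Tf ex m v t⟫ = k * ‖ex (m, t • v)‖ ^ 2 := by
      have h2 := rad hG hE hm v t
      rw [← hk, div_eq_iff (by positivity)] at h2
      exact h2
    have h3 := (hasD_c hE hm v t).norm_sq
    have h4 : HasDerivAt (fun s : ℝ => Real.exp (-(2 * k) * s))
        (Real.exp (-(2 * k) * t) * (-(2 * k))) t := by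
      have h5 := ((hasDerivAt_id t).const_mul (-(2 * k))).exp
      simpa using h5
    refine (h3.mul h4).congr_deriv ?_
    rw [h1]
    ring
  have h1 : ∀ s t : ℝ, ‖ex (m, s • v)‖ ^ 2 * Real.exp (-(2 * k) * s) =
      ‖ex (m, t • v)‖ ^ 2 * Real.exp (-(2 * k) * t) :=
    is_const_of_deriv_eq_zero (fun t => (hd t).differentiableAt) (fun t => (hd t).deriv)
  have h2 := h1 1 0
  rw [one_smul, ex_zero hE hm, mul_one, mul_zero, Real.exp_zero, mul_one] at h2
  rw [← hk]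
  apply (sq_eq_sq₀ (norm_nonneg _) (by positivity)).1
  rw [mul_pow, ← Real.exp_nat_mul, ← h2, mul_assoc, ← Real.exp_add]
  push_cast
  rw [neg_add_cancel, Real.exp_zero, mul_one]

theorem xb1 : Xb1Statement := by
  intro G ex hG hE m hm
  exact ⟨cdE hE hm, dE_zero hE hm, hasD_c hE hm, hasD_T hE hm, speed hG hE hm, norm_ex hG hE hm⟩

end Pool.Agent.ZRT.H62
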