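import Pool.Agent.Helper62_ZRT.XB1

/-!
# ZRT, row XGA (helper62): the Gauss lemma
-/

set_option autoImplicit false

noncomputable section

open scoped ContDiff Topology RealInnerProductSpace
open Set

namespace Pool.Agent.ZRT.H62

open Pool.Agent.RF Pool.Agent.MVS Pool.Agent.ZRT

variable {G : E5 → Bil E5} {ex : E5 × E5 → E5}

theorem hasD_aff (v w : E5) (t : ℝ) : HasDerivAt (fun s : ℝ => v + s • w) w t := by
  have h := ((hasDerivAt_id t).smul_const w).const_add v
  simpa using h

/-- `2 G(T, D_s T) = ∂_s G m (v + s w) (v + s w)` at `s = 0` -/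
theorem speed_var (hG : IsCyl G) (hE : IsExp G ex) {m : E5} (hm : m ∈ Om (Fin 5)) (v w : E5)
    (t : ℝ) :
    G (ex (m, t • v)) (Tf ex m v t)
      (fderiv ℝ (fderiv ℝ (fun u : E5 => ex (m, u))) (t • v) (t • w) v + dE ex m (t • v) w
        + chris G (ex (m, t • v)) (dE ex m (t • v) (t • w)) (Tf ex m v t)) = G m v w := by
  have hzl : HasDerivAt (fun s : ℝ => t • (v + s • w)) (t • w) 0 := (hasD_aff v w 0).const_smul t
  have hwl : HasDerivAt (fun s : ℝ => v + s • w) w 0 := hasD_aff v w 0
  have h1 := hasD_ex hE hm hzl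
  have h2 := hasD_dE hE hm hzl hwl
  have h3 := mco (Fin 5) G (Om (Fin 5)) hG.metric _ _ _ _ _ _ 0 (hE.mem m hm _) h1 h2 h2
  have h4 : HasDerivAt (fun s : ℝ => G m (v + s • w) (v + s • w)) (G m w v + G m v w) 0 := by
    have h5 : (fun s : ℝ => G m (v + s • w) (v + s • w)) = fun s : ℝ =>
        G m v v + s * (G m w v + G m v w) + s ^ 2 * G m w w := by
      funext s
      simp only [map_add, map_smul, _root_.add_apply, _root_.smul_apply, smul_eq_mul]
      ring
    rw [h5]
    have h6 := (((hasDerivAt_id (0 : ℝ)).mul_const (G m w v + G m v w)).const_add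
      (G m v v)).add ((hasDerivAt_pow 2 (0 : ℝ)).mul_const (G m w w))
    refine h6.congr_deriv ?_
    simp
  have h5 : (fun s : ℝ => G m (v + s • w) (v + s • w)) = fun s : ℝ =>
      G (ex (m, t • (v + s • w))) (dE ex m (t • (v + s • w)) (v + s • w))
        (dE ex m (t • (v + s • w)) (v + s • w)) := by
    funext s
    exact (speed hG hE hm (v + s • w) t).symm
  rw [h5] at h4
  have h6 := h3.unique h4
  have hx := hE.mem m hm (t • v)
  simp only [zero_smul, add_zero] at h6
  rw [hG.metric.symm _ hx (_ + _ + _) _, hG.metric.symm m hm w v] at h6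
  unfold Tf
  linarith

theorem gau_line (hG : IsCyl G) (hE : IsExp G ex) {m : E5} (hm : m ∈ Om (Fin 5)) (v w : E5)
    (t : ℝ) :
    G (ex (m, t • v)) (Tf ex m v t) (dE ex m (t • v) (t • w)) = t * G m v w := by
  have hd : ∀ t : ℝ, HasDerivAt (fun s : ℝ => G (ex (m, s • v)) (Tf ex m v s)
      (dE ex m (s • v) (s • w)) - s * G m v w) 0 t := by
    intro t
    have hx := hE.mem m hm (t • v)
    have h3 := hasD_dE hE hm (hasD_line v t) (hasD_line w t)
    have h4 := mco (Fin 5) G (Om (Fin 5)) hG.metric _ _ _ _ _ _ t hx (hasD_c hE hm v t)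
      (hasD_T hE hm v t) h3
    rw [neg_add_cancel, map_zero, _root_.zero_apply, zero_add, sym_dE hE hm,
      hG.metric.chris_symm hx, speed_var hG hE hm v w t] at h4
    have h5 := h4.sub ((hasDerivAt_id t).mul_const (G m v w))
    refine h5.congr_deriv ?_
    simp
  have h1 : ∀ s t : ℝ, G (ex (m, s • v)) (Tf ex m v s) (dE ex m (s • v) (s • w)) - s * G m v w =
      G (ex (m, t • v)) (Tf ex m v t) (dE ex m (t • v) (t • w)) - t * G m v w :=
    is_const_of_deriv_eq_zero (fun t => (hd t).differentiableAt) (fun t => (hd t).deriv)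
  have h2 := h1 t 0
  have h3 : dE ex m ((0 : ℝ) • v) ((0 : ℝ) • w) = 0 := by
    unfold dE
    rw [zero_smul ℝ w, map_zero]
  rw [h3, map_zero, zero_mul, sub_zero] at h2
  linarith

theorem xga : XgaStatement := by
  intro G ex hG hE m hm v w
  have h := gau_line hG hE hm v w 1
  unfold Tf at h
  rwa [one_smul, one_smul, one_mul] at h

end Pool.Agent.ZRT.H62
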