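import Pool.Agent.ZRT.StmtsB

/-!
# ZRT, row LNC (helper62): norm estimate along lifts on a subinterval
-/

set_option autoImplicit false

noncomputable section

open scoped ContDiff Topology RealInnerProductSpace
open Set

namespace Pool.Agent.ZRT.H62

open Pool.Agent.RF Pool.Agent.MVS Pool.Agent.ZRT

theorem nm_smul' (G : E5 → Bil E5) (x v : E5) (b : ℝ) (hb : 0 ≤ b) :
    nm G x (b • v) = b * nm G x v := by
  unfold nm
  rw [map_smul, map_smul, smul_eq_mul, ContinuousLinearMap.smul_apply, smul_eq_mul, ← mul_assoc,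
    Real.sqrt_mul (mul_nonneg hb hb), Real.sqrt_mul_self hb]

theorem lnc (hLnb : LnbStatement) : LncStatement := by
  intro G ex hG hS hE m hm c y l b hl hb hb1 hsp hy hlt heq s hs
  rcases hb.eq_or_lt with hb0 | hb0
  · have hs0 : s = 0 := le_antisymm (by rw [hb0]; exact hs.2) hs.1
    subst hs0
    rw [mul_zero, add_zero]
  have hmap : ∀ r ∈ Icc (0 : ℝ) 1, b * r ∈ Icc (0 : ℝ) b := by
    intro r hr
    exact ⟨mul_nonneg hb hr.1, by nlinarith [hr.2]⟩
  have hmap1 : ∀ r ∈ Icc (0 : ℝ) 1, b * r ∈ Icc (0 : ℝ) 1 := by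
    intro r hr
    exact ⟨(hmap r hr).1, (hmap r hr).2.trans hb1⟩
  obtain ⟨c', hc'⟩ := hsp
  have h1 : Speed G (fun r => c (b * r)) (b * l) := by
    refine ⟨fun r => b • c' (b * r), fun r hr => ⟨?_, ?_⟩⟩
    · have hd : HasDerivWithinAt (fun r : ℝ => b * r) b (Icc 0 1) r := by
        have := (hasDerivAt_id r).const_mul b
        rw [mul_one] at this
        exact this.hasDerivWithinAt
      exact (hc' (b * r) (hmap1 r hr)).1.scomp r hd hmap1
    · rw [nm_smul' G _ _ b hb]
      exact mul_le_mul_of_nonneg_left (hc' (b * r) (hmap1 r hr)).2 hb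
  have h2 : IsLift G ex m (fun r => c (b * r)) (fun r => y (b * r)) := by
    refine ⟨?_, fun r hr => hlt _ (hmap r hr), fun r hr => heq _ (hmap r hr)⟩
    exact hy.comp (by fun_prop) hmap
  have h3 := hLnb G ex hG hS hE m hm (fun r => c (b * r)) (fun r => y (b * r)) (b * l)
    (mul_nonneg hb hl) h1 h2 0 ⟨le_refl _, zero_le_one⟩ (s / b)
    ⟨div_nonneg hs.1 hb, (div_le_one hb0).2 hs.2⟩
  have h4 : b * (s / b) = s := by field_simp
  simp only [h4, mul_zero, sub_zero] at h3
  rw [abs_of_nonneg (div_nonneg hs.1 hb)] at h3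
  have h5 : b * l * (s / b) = l * s := by field_simp
  rw [h5] at h3
  exact h3

end Pool.Agent.ZRT.H62
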